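import Pool.Agent.Lib.TNF.Asm.Spec

/-!
# PROJECT TNF: algebraically independent points belong to every Hilbert set (helper64)
-/

set_option autoImplicit false

noncomputable section

namespace TNF

open Polynomial

namespace Ai_aux

variable {p : ℕ}

/-- The coefficients in the field `ℚ(s)`, an algebra map. -/
def al (s : Fin p → ℂ) : MvPolynomial (Fin p) ℚ →ₐ[ℚ] Qs s :=
  MvPolynomial.aeval fun i => (⟨s i, IntermediateField.subset_adjoin ℚ _ ⟨i, rfl⟩⟩ : Qs s)

theorem val_al (s : Fin p → ℂ) (f : MvPolynomial (Fin p) ℚ) :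
    ((al s f : Qs s) : ℂ) = MvPolynomial.aeval s f := by
  have h : ((Qs s).val.comp (al s)) = MvPolynomial.aeval s := by
    refine MvPolynomial.algHom_ext fun i => ?_
    rw [MvPolynomial.aeval_X]
    exact congrArg (Subtype.val : Qs s → ℂ) (MvPolynomial.aeval_X _ i)
  exact congrArg (fun g : MvPolynomial (Fin p) ℚ →ₐ[ℚ] ℂ => g f) h

theorem al_inj (s : Fin p → ℂ) (hs : AlgebraicIndependent ℚ s) : Function.Injective (al s) := by
  intro f g h
  refine algebraicIndependent_iff_injective_aeval.1 hs ?_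
  rw [← val_al, ← val_al, h]

theorem irr (s : Fin p → ℂ) (hs : AlgebraicIndependent ℚ s)
    (P : Polynomial (MvPolynomial (Fin p) ℚ)) (hP : IrrG P) : IrrAt P s := by
  have hinj := al_inj s hs
  let φ : FractionRing (MvPolynomial (Fin p) ℚ) →ₐ[ℚ] Qs s := IsFractionRing.liftAlgHom hinj
  have hφ : ∀ f, φ (algebraMap _ _ f) = al s f := fun f =>
    IsFractionRing.lift_algebraMap (K := FractionRing (MvPolynomial (Fin p) ℚ)) hinj f
  have hφi : Function.Injective φ := φ.toRingHom.injective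
  have hsur : Function.Surjective φ := by
    have h1 : Qs s ≤ ((Qs s).val.comp φ).fieldRange := by
      rw [IntermediateField.adjoin_le_iff]
      rintro _ ⟨i, rfl⟩
      refine ⟨algebraMap (MvPolynomial (Fin p) ℚ) (FractionRing (MvPolynomial (Fin p) ℚ))
        (MvPolynomial.X i), ?_⟩
      change ((φ (algebraMap (MvPolynomial (Fin p) ℚ) (FractionRing (MvPolynomial (Fin p) ℚ))
        (MvPolynomial.X i)) : Qs s) : ℂ) = s i
      rw [hφ, val_al, MvPolynomial.aeval_X]
    intro x
    obtain ⟨y, hy⟩ := h1 x.2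
    exact ⟨y, Subtype.ext hy⟩
  let e : FractionRing (MvPolynomial (Fin p) ℚ) ≃+* Qs s :=
    RingEquiv.ofBijective φ.toRingHom ⟨hφi, hsur⟩
  have h2 : P.map (toQs s) = (P.map (algebraMap (MvPolynomial (Fin p) ℚ)
      (FractionRing (MvPolynomial (Fin p) ℚ)))).map (e : _ →+* Qs s) := by
    rw [Polynomial.map_map]
    congr 1
    refine RingHom.ext fun f => ?_
    exact (hφ f).symm
  unfold IrrAt
  rw [h2]
  exact (MulEquiv.irreducible_iff (Polynomial.mapEquiv e)).mpr hP

end Ai_aux

/-- Algebraically independent points are good. -/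
theorem hil_of_ai {p : ℕ} (F : List (Polynomial (MvPolynomial (Fin p) ℚ)))
    (Δ : MvPolynomial (Fin p) ℚ) (hF : ∀ P ∈ F, IrrG P ∧ 0 < P.natDegree) (hΔ : Δ ≠ 0)
    (s : Fin p → ℂ) (hs : AlgebraicIndependent ℚ s) : Hil F Δ s := by
  refine ⟨fun h => hΔ ?_, fun P hP => Ai_aux.irr s hs P (hF P hP).1⟩
  refine algebraicIndependent_iff_injective_aeval.1 hs ?_
  rw [h, map_zero]

end TNF
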