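import Pool.Agent.Lib.TNF.Asm.Main
import Pool.Agent.Lib.TNF.Asm.Ai

/-!
# PROJECT TNF: the theorem in its final form (helper64)
-/

set_option autoImplicit false

open Topology Metric

noncomputable section

namespace TNF

open HC HC.CC SEJ TATE

/-- **THE THEOREM**: the Tate conjecture for products of new parts outside a thin set. -/
def Main3 : Prop :=
  ∀ p M : ℕ, ∃ (F : List (Polynomial (MvPolynomial (Fin p) ℚ))) (Δ : MvPolynomial (Fin p) ℚ),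
    (∀ P ∈ F, IrrG P ∧ 0 < P.natDegree) ∧ Δ ≠ 0 ∧
    (∀ s : Fin p → ℂ, AlgebraicIndependent ℚ s → Hil F Δ s) ∧
    (∀ ε : ℝ, 0 < ε → ∃ C : ℝ, ∀ N : ℕ, 1 ≤ N →
      ({s : Fin p → ℤ | (∀ i, |s i| ≤ N) ∧ ¬ Hil F Δ fun i => (s i : ℂ)}.ncard : ℝ) ≤
        C * (N : ℝ) ^ ((p : ℝ) - 1 / 2 + ε)) ∧
    ∀ s : Fin p → ℂ, Hil F Δ s →
    ∀ (T : AV) (N : ℕ) (J : Fin N → AV) (γ : ∀ n, Cur (J n)) (g : ∀ n, T.V → (J n).V) (i : ℕ),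
      (∀ n, IsBM s M (2 * i) (γ n)) → IsPr g →
      ∀ (ℓ : ℕ) [Fact ℓ.Prime], ℓ ≤ M → ∀ c : HL T ℓ (2 * i), IsTate s γ g ℓ i c → IsAl c

theorem main3_of (h : Main2) : Main3 := by
  intro p M
  obtain ⟨F, Δ, h1, h2, h3, h4⟩ := h p M
  exact ⟨F, Δ, h1, h2, hil_of_ai F Δ h1 h2, h3, h4⟩

end TNF
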