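import Pool.Agent.Lib.TNF.Asm.Spec

/-!
# PROJECT TNF, assembly: all data of degree at most `M` (`S_Pkm`)
-/

set_option autoImplicit false

open HC HC.CC SEJ TATE Topology Metric

noncomputable section

namespace TNF

namespace Pkm_aux

/-- The data of one factor: `m`, `r`, `i`, `k`, `b`. -/
abbrev Om (p M : ℕ) : Type :=
  Σ (_ : Fin (M + 1)) (r : Fin p),
    (Fin ((r : ℕ) + 1) → Fin p) × Option (Fin p) × (Fin ((r : ℕ) + 1) → Fin (M + 1))

variable {p M : ℕ}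

def mk {N : ℕ} (x : Fin N → Om p M) : Dt p N where
  m n := ((x n).1 : ℕ)
  r n := ((x n).2.1 : ℕ)
  i n := (x n).2.2.1
  k n := (x n).2.2.2.1
  b n := fun j => ((x n).2.2.2.2 j : ℕ)

/-- The conditions for one factor. -/
def Ok1 (x : Om p M) : Prop :=
  Function.Injective x.2.2.1 ∧ (∀ l, x.2.2.2.1 = some l → ∀ j, x.2.2.1 j < l) ∧
    Cvb (x.1 : ℕ) (fun j => (x.2.2.2.2 j : ℕ)) ∧ 3 ≤ (x.2.1 : ℕ) ∧
    Ndf (x.1 : ℕ) (fun j => (x.2.2.2.2 j : ℕ))

theorem mk_ok {N : ℕ} (x : Fin N → Om p M) (h : ∀ n, Ok1 (x n)) : (mk x).ok where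
  inj n := (h n).1
  lt n := (h n).2.1
  cv n := (h n).2.2.1
  r3 n := (h n).2.2.2.1
  ndf n := (h n).2.2.2.2

end Pkm_aux

open Pkm_aux in
/-- **Pkm**. -/
theorem tPkm : StmtFA3 → S_Pkm := by
  classical
  intro h3 p M
  let e := Fintype.equivFin {x : Om p M // Ok1 x}
  refine ⟨Fintype.card {x : Om p M // Ok1 x}, mk fun n => (e.symm n).1,
    mk_ok _ fun n => (e.symm n).2, ?_⟩
  intro s N J γ d hs hB
  choose m Z r i k b hi hlt hm hmM hr hbm hcv hbal hcy hdim hmp A hA1 hA2 hA3 using hB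
  have hcvb : ∀ n, Cvb (m n) (b n) := fun n => ⟨hm n, (hcv n).2.2⟩
  choose κ hκ1 hκ2 hκ3 hκ4 using fun n => h3 (J n) (m n) (r n) (Z n) (pt s (i n) (k n)) (b n) (γ n)
    (hcvb n) (hcv n).2.1 (hcy n) (hdim n) (hmp n)
  have hndf : ∀ n, Ndf (m n) (b n) := fun n => by
    rcases hbal n with h | h
    · have h1 := h 1 (by have := hm n; omega) (Nat.coprime_one_left _)
      have h2 := hr n
      have h4 : 1 < m n := by have := hm n; omega
      refine ⟨1, h4, Nat.coprime_one_left _, ?_, ?_⟩ <;> omega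
    · exact h.1
  have hrp : ∀ n, r n < p := fun n => by
    have h1 := Fintype.card_le_of_injective (i n) (hi n)
    rw [Fintype.card_fin, Fintype.card_fin] at h1
    omega
  let x : Fin N → {x : Om p M // Ok1 x} := fun n =>
    ⟨⟨⟨m n, by have := hmM n; omega⟩, ⟨r n, hrp n⟩, i n, k n,
      fun j => ⟨b n j, by have := hmM n; have := hbm n j; omega⟩⟩,
      hi n, hlt n, hcvb n, hr n, hndf n⟩
  have hx : (fun n => e.symm (e (x n))) = x := by
    funext n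
    exact e.symm_apply_apply (x n)
  have hD : (⟨m, r, i, k, b⟩ : Dt p N) = Dpl (mk fun n => (e.symm n).1) fun n => e (x n) := by
    calc (⟨m, r, i, k, b⟩ : Dt p N) = mk fun n => (x n).1 := rfl
      _ = mk fun n => ((fun n => e.symm (e (x n))) n).1 := by rw [hx]
      _ = Dpl (mk fun n => (e.symm n).1) fun n => e (x n) := rfl
  refine ⟨fun n => e (x n), ⟨⟨m, r, i, k, b⟩, ⟨hi, hlt, hcvb, hr, hndf⟩, Z, hcy, hdim, hmp, κ,
    hκ2, hκ3, hκ4, ⋃ n, A n, Set.finite_iUnion hA1, fun a ha => ?_, fun n σ hσ =>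
      hA3 n σ ⟨hσ.1, fun a ha => hσ.2 a (Set.mem_iUnion.2 ⟨n, ha⟩)⟩⟩, hD,
    fun n => (hbal n).imp id fun h => h.2⟩
  obtain ⟨n, hn⟩ := Set.mem_iUnion.1 ha
  exact hA2 n a hn

end TNF
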