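import Pool.Agent.Lib.TNF.Asm.Spec

/-!
# PROJECT TNF, assembly: restriction of the loops statement to some of the data
-/

set_option autoImplicit false

open HC HC.CC SEJ TATE Topology Metric

noncomputable section

namespace TNF

namespace Plb_aux

/-- A locally constant property on the unit interval. -/
theorem locc (P : ℝ → Prop)
    (h : ∀ t ∈ Set.Icc (0 : ℝ) 1, ∃ ε > 0, ∀ t' ∈ Set.Icc (0 : ℝ) 1, |t' - t| < ε →
      (P t ↔ P t'))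
    (h0 : P 0) : ∀ t ∈ Set.Icc (0 : ℝ) 1, P t := by
  have hcl : IsClosed ({t | P t} ∩ Set.Icc (0 : ℝ) 1) := by
    rw [← closure_subset_iff_isClosed]
    intro t ht
    have htI : t ∈ Set.Icc (0 : ℝ) 1 :=
      isClosed_Icc.closure_subset_iff.2 (Set.inter_subset_right) ht
    obtain ⟨ε, hε, hh⟩ := h t htI
    obtain ⟨s, hs, hst⟩ := Metric.mem_closure_iff.1 ht ε hε
    refine ⟨(hh s hs.2 ?_).2 hs.1, htI⟩
    rwa [dist_comm, Real.dist_eq] at hst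
  refine hcl.Icc_subset_of_forall_mem_nhdsWithin h0 ?_
  rintro x ⟨hx, hx0, hx1⟩
  obtain ⟨ε, hε, hh⟩ := h x ⟨hx0, hx1.le⟩
  rw [mem_nhdsWithin]
  refine ⟨Set.Ioo (x - ε) (min (x + ε) 1), isOpen_Ioo, ⟨by linarith, lt_min (by linarith) hx1⟩,
    ?_⟩
  rintro y ⟨⟨hy1, hy2⟩, hy3⟩
  have hy4 : x < y := hy3
  have hy5 : y < x + ε := lt_of_lt_of_le hy2 (min_le_left _ _)
  have hy6 : y < 1 := lt_of_lt_of_le hy2 (min_le_right _ _)
  refine (hh y ⟨by linarith, hy6.le⟩ ?_).1 hx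
  rw [abs_lt]
  exact ⟨by linarith, by linarith⟩

/-- The transports of the two families agree on the common component. -/
theorem cmp (Φ : FF) {p N N' : ℕ} (D : Dt p N') (h : D.ok) (ν : Fin N → Fin N')
    (s w : Fin p → ℂ) (M : Fml (Dpl D ν).V (Bd s w)) (hM : IsLn Φ (Dpl D ν) (Dpl_ok h ν) s w M)
    (M' : Fml D.V (Bd s w)) (hM' : IsLn Φ D h s w M') (δ : ℝ → ℂ) (z z' : ℂ)
    (hδ : IsPth (Bd s w) δ z z') (φ : ℝ → ((Dpl D ν).V ≃ₗ[ℝ] (Dpl D ν).V)) (hφ : IsTr M δ φ)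
    (φ' : ℝ → (D.V ≃ₗ[ℝ] D.V)) (hφ' : IsTr M' δ φ') (n : Fin N) (v : (Dpl D ν).V) (v' : D.V)
    (hv : v n = v' (ν n)) : ∀ t ∈ Set.Icc (0 : ℝ) 1, φ t v n = φ' t v' (ν n) := by
  refine locc _ ?_ ?_
  · intro t ht
    obtain ⟨ε, hε, h1⟩ := hφ.loc t ht
    obtain ⟨ε', hε', h1'⟩ := hφ'.loc t ht
    refine ⟨min ε ε', lt_min hε hε', fun t' ht' htt => ?_⟩
    obtain ⟨h2, h3⟩ := h1 t' ht' (lt_of_lt_of_le htt (min_le_left _ _))
    obtain ⟨h2', h3'⟩ := h1' t' ht' (lt_of_lt_of_le htt (min_le_right _ _))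
    have hF : δ t ∉ Bd s w := hδ.mem t ht
    have h4 := hM.τ (δ t) hF (δ t') h2 (φ t v) n
    have h4' := hM'.τ (δ t) hF (δ t') h2' (φ' t v') (ν n)
    rw [← h3] at h4
    rw [← h3'] at h4'
    rw [h4, h4']
    constructor
    · intro h5
      exact congrArg _ h5
    · intro h5
      exact LinearEquiv.injective _ h5
  · rw [hφ.zero, hφ'.zero]
    exact hv

end Plb_aux

open Plb_aux in
theorem tPlb : StmtFL → StmtPA1 → TATE.S_Av → S_Plb := by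
  classical
  intro hFL hPA hAv Λ Φ p N N' D h ν ℓ s X hs hL w hw M hM δ hδ φ hφ k
  obtain ⟨hfin, M', hM'⟩ := hFL Φ p N' D h s w hs
  obtain ⟨φ', hφ'⟩ := (hPA D.V (Bd s w) hfin M' δ 0 0 hδ).1
  obtain ⟨σ, hσ, hξ, hv⟩ := hL w hw M' hM' δ hδ φ' hφ' k
  refine ⟨σ, ⟨hσ.1, fun n => hσ.2 (ν n)⟩, hξ, fun v hvL n => ?_⟩
  set v' : D.V := Pi.single (ν n) (v n) with hv'
  have hvn : v' (ν n) = v n := Pi.single_eq_same _ _
  have hmem : v' ∈ LPs Λ D h s := by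
    intro n'
    by_cases hn : n' = ν n
    · subst hn
      rw [hvn]
      exact hvL n
    · rw [hv', Pi.single_eq_of_ne hn]
      exact (Λ _ _ _ (h.cv n')).zero _ ((hAv p N' D s h hs).1 n')
  have h1 := hv v' hmem (ν n)
  have h2 := cmp Φ D h ν s w M hM M' hM' δ 0 0 hδ φ hφ φ' hφ' n v v' hvn.symm 1
    ⟨zero_le_one, le_rfl⟩
  rw [Pi.smul_apply, Pi.smul_apply, hvn, ← h2] at h1
  rw [Pi.smul_apply, Pi.smul_apply]
  exact h1

end TNF
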