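import Pool.Agent.Lib.TNF.Asm.Spec

/-!
# PROJECT TNF: the theorem, from the packages (helper64)
-/

set_option autoImplicit false

open Topology Metric

noncomputable section

namespace TNF

open HC HC.CC SEJ TATE

namespace Main_aux

variable {p : ℕ}

/-- The product of the differences of the variables. -/
def vdm (p : ℕ) : MvPolynomial (Fin p) ℚ :=
  ∏ i : Fin p, ∏ j : Fin p, if i = j then 1 else MvPolynomial.X i - MvPolynomial.X j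

theorem vdm_ne (p : ℕ) : vdm p ≠ 0 := by
  unfold vdm
  refine Finset.prod_ne_zero_iff.2 fun i _ => Finset.prod_ne_zero_iff.2 fun j _ => ?_
  split_ifs with h
  · exact one_ne_zero
  · intro h0
    exact h (MvPolynomial.X_injective (sub_eq_zero.1 h0))

theorem inj_of_vdm (s : Fin p → ℂ) (h : MvPolynomial.aeval s (vdm p) ≠ 0) :
    Function.Injective s := by
  intro i j hij
  by_contra hne
  refine h ?_
  unfold vdm
  rw [map_prod]
  refine Finset.prod_eq_zero (Finset.mem_univ i) ?_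
  rw [map_prod]
  refine Finset.prod_eq_zero (Finset.mem_univ j) ?_
  rw [if_neg hne, map_sub, MvPolynomial.aeval_X, MvPolynomial.aeval_X, hij, sub_self]

end Main_aux

open Main_aux in
/-- **THE THEOREM**, from the packages. -/
theorem main_of (hAB : StmtAB) (hHIT : HIT.StmtHIT2) (hLG : StmtLG) (hOR : StmtOR)
    (hAL : StmtAL) (hΦ : StmtFA1) (hPkm : S_Pkm) (hPlb : S_Plb) (hPg : S_Pg)
    (hM : HC.CC.Main) : Main2 := by
  classical
  intro p M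
  let Φ : FF := fun m r b h => (hΦ m r b h).some
  let Λ : LL := fun m r b h => (hAB m r b h).some
  obtain ⟨N', D, hD, hPkm⟩ := hPkm p M
  have hL : ∀ ℓ : ℕ, ∃ (P : Polynomial (MvPolynomial (Fin p) ℚ)) (Δ : MvPolynomial (Fin p) ℚ),
      IrrG P ∧ 0 < P.natDegree ∧ Δ ≠ 0 ∧ (ℓ.Prime → ∀ s : Fin p → ℂ, Function.Injective s →
        Hil [P] Δ s → ∃ X : Set (Fin p → ℂ), IsMeagre X ∧ Lps Λ Φ D hD ℓ s X) := by
    intro ℓ
    by_cases hℓ : ℓ.Prime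
    · obtain ⟨P, Δ, h1, h2, h3, h4⟩ := hLG Λ Φ p N' D hD ℓ hℓ
      exact ⟨P, Δ, h1, h2, h3, fun _ => h4⟩
    · obtain ⟨P, Δ, h1, h2, h3, -⟩ := hLG Λ Φ p N' D hD 2 Nat.prime_two
      exact ⟨P, Δ, h1, h2, h3, fun h => absurd h hℓ⟩
  choose P Δ hP1 hP2 hΔ hL using hL
  refine ⟨(List.range (M + 1)).map P, vdm p * ∏ ℓ ∈ Finset.range (M + 1), Δ ℓ, ?_, ?_, ?_, ?_⟩
  · intro Q hQ
    obtain ⟨ℓ, -, rfl⟩ := List.mem_map.1 hQ
    exact ⟨hP1 ℓ, hP2 ℓ⟩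
  · exact mul_ne_zero (vdm_ne p) (Finset.prod_ne_zero_iff.2 fun ℓ _ => hΔ ℓ)
  · refine hHIT p _ _ ?_ ?_
    · exact mul_ne_zero (vdm_ne p) (Finset.prod_ne_zero_iff.2 fun ℓ _ => hΔ ℓ)
    · intro Q hQ
      obtain ⟨ℓ, -, rfl⟩ := List.mem_map.1 hQ
      exact ⟨hP1 ℓ, hP2 ℓ⟩
  intro s hs T N J γ g i hB hg ℓ _ hℓ c hc
  obtain ⟨hs1, hs2⟩ := hs
  rw [map_mul, map_prod] at hs1
  have hinj : Function.Injective s := inj_of_vdm s (left_ne_zero_of_mul hs1)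
  have hmem : ℓ ∈ Finset.range (M + 1) := Finset.mem_range.2 (Nat.lt_succ_of_le hℓ)
  have hΔ' : MvPolynomial.aeval s (Δ ℓ) ≠ 0 :=
    Finset.prod_ne_zero_iff.1 (right_ne_zero_of_mul hs1) ℓ hmem
  have hH : Hil [P ℓ] (Δ ℓ) s := by
    refine ⟨hΔ', fun Q hQ => ?_⟩
    rw [List.mem_singleton] at hQ
    subst hQ
    exact hs2 _ (List.mem_map.2 ⟨ℓ, List.mem_range.2 (Nat.lt_succ_of_le hℓ), rfl⟩)
  obtain ⟨X, hX, hLp⟩ := hL ℓ (Fact.out) s hinj hH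
  obtain ⟨ν, Q, hQ, hbal⟩ := hPkm s N J γ (2 * i) hinj hB
  obtain ⟨G, hG, hGL⟩ := hPg p N s J γ Q T g hg
  have hLp' : ∀ h : Q.D.ok, Lps Λ Φ Q.D h ℓ s X := by
    rw [hQ]
    exact fun _ => hPlb Λ Φ p N N' D hD ν ℓ s X hinj hLp
  obtain ⟨n, x, C, hCr, hcmp, hGC⟩ := hOR Λ Φ p N s J γ hinj Q T g hg G hG hGL ℓ X
    (hLp' Q.ok) i c hc
  exact ⟨n, x, C, fun k => hAL hM Φ p N s J γ hinj Q T g hg G hG hGL (2 * i) hbal X hX (C k)
    (hCr k) (hGC k), hcmp⟩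

end TNF
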