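import Pool.Agent.Lib.TNF.HIT.Brg

/-!
# PROJECT TNF, assembly (helper64)
-/

set_option autoImplicit false

open Topology Metric

noncomputable section

namespace TNF

open HC HC.CC SEJ TATE

/-- The data `D.m (ν n)`, … -/
def Dpl {p N N' : ℕ} (D : Dt p N') (ν : Fin N → Fin N') : Dt p N where
  m n := D.m (ν n)
  r n := D.r (ν n)
  i n := D.i (ν n)
  k n := D.k (ν n)
  b n := D.b (ν n)

theorem Dpl_ok {p N N' : ℕ} {D : Dt p N'} (h : D.ok) (ν : Fin N → Fin N') : (Dpl D ν).ok where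
  inj n := h.inj (ν n)
  lt n := h.lt (ν n)
  cv n := h.cv (ν n)
  r3 n := h.r3 (ν n)
  ndf n := h.ndf (ν n)

/-- **Pkm**: ALL DATA OF DEGREE `≤ M`; the data of the factors. From StmtFA3. PROOF. The finite type `Σ (m : Fin (M + 1)) (r : Fin p), (Fin (r + 1) → Fin p) × Option (Fin p) × (Fin (r + 1) → Fin (M + 1))`
(`r + 1 ≤ p` because `i` is injective), the subtype of the elements which satisfy the conditions of `Dt.ok`, `N'` its cardinality, `Fintype.equivFin`. The second part: `choose` as in `TATE/Asm/Pk.lean` (`Bal` and `3 ≤ r` give `Ndf`). -/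
def S_Pkm : Prop :=
  ∀ p M : ℕ, ∃ (N' : ℕ) (D : Dt p N'), D.ok ∧
    ∀ (s : Fin p → ℂ) (N : ℕ) (J : Fin N → AV) (γ : ∀ n, Cur (J n)) (d : ℕ),
      Function.Injective s → (∀ n, IsBM s M d (γ n)) →
      ∃ (ν : Fin N → Fin N') (P : Pk s γ), P.D = Dpl D ν ∧
        ∀ n, Bal (P.D.m n) (P.D.b n) ∨ d < P.D.r n

/-- **Plb**: RESTRICTION of `Lps` to the data `D.m (ν n)`. From StmtFL, StmtPA1, TATE.S_Av. PROOF. `M` the family of `Dpl D ν`, `M'` the family of `D` (`StmtFL`), `φ`, `φ'` the transports along `δ` (`StmtPA1`). For fixed `n` and `v n = v' (ν n)`: `φ t v n = φ' t v' (ν n)`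
for all `t ∈ [0, 1]` (the set of these `t` is open and closed: `IsTr.loc`, `IsLn.τ` for both families at two near points; compare `TATE/PA/Eqv.lean`, `locc`). For `v` in the lattice and fixed `n` take `v' = Pi.single (ν n) (v n)` (`LPD.zero`) and the component `ν n` of `ActD`. The
same `σ` works for all `v` and `n` (it is given before `v`). -/
def S_Plb : Prop :=
  ∀ (Λ : LL) (Φ : FF) (p N N' : ℕ) (D : Dt p N') (h : D.ok) (ν : Fin N → Fin N') (ℓ : ℕ)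
    (s : Fin p → ℂ) (X : Set (Fin p → ℂ)), Function.Injective s → Lps Λ Φ D h ℓ s X →
    Lps Λ Φ (Dpl D ν) (Dpl_ok h ν) ℓ s X

/-- **THE THEOREM**: the Tate conjecture for products of new parts outside a thin set. -/
def Main2 : Prop :=
  ∀ p M : ℕ, ∃ (F : List (Polynomial (MvPolynomial (Fin p) ℚ))) (Δ : MvPolynomial (Fin p) ℚ),
    (∀ P ∈ F, IrrG P ∧ 0 < P.natDegree) ∧ Δ ≠ 0 ∧
    (∀ ε : ℝ, 0 < ε → ∃ C : ℝ, ∀ N : ℕ, 1 ≤ N →
      ({s : Fin p → ℤ | (∀ i, |s i| ≤ N) ∧ ¬ Hil F Δ fun i => (s i : ℂ)}.ncard : ℝ) ≤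
        C * (N : ℝ) ^ ((p : ℝ) - 1 / 2 + ε)) ∧
    ∀ s : Fin p → ℂ, Hil F Δ s →
    ∀ (T : AV) (N : ℕ) (J : Fin N → AV) (γ : ∀ n, Cur (J n)) (g : ∀ n, T.V → (J n).V) (i : ℕ),
      (∀ n, IsBM s M (2 * i) (γ n)) → IsPr g →
      ∀ (ℓ : ℕ) [Fact ℓ.Prime], ℓ ≤ M → ∀ c : HL T ℓ (2 * i), IsTate s γ g ℓ i c → IsAl c

end TNF
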